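import Pool.Agent.LAT.StmtsM

set_option autoImplicit false

namespace Pool.Agent.LAT.H8

open Matrix Pool.Agent.LAT

theorem cet_mul {m : ℕ} (G A : Matrix (Fin m) (Fin m) ℤ) (hG : G.IsSymm) (c i : Fin m) :
    ∑ j, G i j * A c j = (A * G) c i := by
  rw [Matrix.mul_apply]
  refine Finset.sum_congr rfl fun j _ => ?_
  rw [hG.apply i j, mul_comm]

theorem cet_to {m : ℕ} (G A : Matrix (Fin m) (Fin m) ℤ) (hG : G.IsSymm) (hA : IsTri G A) :
    IsCert G (Fin.cons 1 fun i => (A * G) i i) (fun c j => A c j) := by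
  refine ⟨by simp, fun c j h => hA.low c j h, fun c => ?_, fun c i h => ?_⟩
  · rcases Nat.eq_zero_or_pos (c : ℕ) with h0 | h0
    · have h1 : c.castSucc = 0 := by
        apply Fin.ext
        simpa using h0
      rw [h1, Fin.cons_zero]
      exact hA.zero c h0
    · obtain ⟨i, hi⟩ : ∃ i : Fin m, (c : ℕ) = (i : ℕ) + 1 :=
        ⟨⟨(c : ℕ) - 1, by omega⟩, by simp only; omega⟩
      have h1 : c.castSucc = i.succ := by
        apply Fin.ext
        simpa using hi
      rw [h1, Fin.cons_succ]
      exact hA.step i c hi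
  · rw [cet_mul G A hG]
    rw [Fin.cons_succ]
    split_ifs with h2
    · rw [h2]
    · exact hA.up c i (lt_of_le_of_ne h h2)

theorem cet_of {m : ℕ} (G : Matrix (Fin m) (Fin m) ℤ) (hG : G.IsSymm) (d : Fin (m + 1) → ℤ)
    (u : Fin m → Fin m → ℤ) (h : IsCert G d u) : IsTri G (Matrix.of u) := by
  refine ⟨fun i j hij => h.supp i j hij, fun i j hji => ?_, fun i hi => ?_, fun i j hij => ?_⟩
  · rw [← cet_mul G (Matrix.of u) hG]
    have := h.eq i j hji.le
    rw [if_neg hji.ne] at this
    exact this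
  · have h1 : i.castSucc = 0 := by
      apply Fin.ext
      simpa using hi
    have := h.diag i
    rw [h1, h.zero] at this
    exact this
  · have h1 : j.castSucc = i.succ := by
      apply Fin.ext
      simpa using hij
    have h2 := h.diag j
    have h3 := h.eq i i le_rfl
    rw [if_pos rfl] at h3
    rw [← cet_mul G (Matrix.of u) hG]
    rw [h1, ← h3] at h2
    exact h2

theorem cet (hC : CerStmt) : CetStmt := by
  intro m G hG hpos
  obtain ⟨hex, hval, huniq, hbd⟩ := hC m G hpos
  refine ⟨?_, ?_, ?_, ?_⟩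
  · obtain ⟨d, u, h⟩ := hex
    exact ⟨Matrix.of u, cet_of G hG d u h⟩
  · intro A A' hA hA'
    have h := (huniq _ _ _ _ (cet_to G A hG hA) (cet_to G A' hG hA')).2
    ext i j
    exact congrFun (congrFun h i) j
  · intro A hA i hi
    have h := (hval _ _ (cet_to G A hG hA)).2
    rw [← h]
    have h1 : Fin.last m = i.succ := by
      apply Fin.ext
      simp [hi]
    rw [h1, Fin.cons_succ]
  · intro X hX hGX A hA i j
    exact (hbd X hX hGX _ _ (cet_to G A hG hA)).2 i j

end Pool.Agent.LAT.H8
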