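import Pool.Agent.LAT.StmtsM

set_option autoImplicit false

namespace Pool.Agent.LAT.H8

open Matrix Pool.Agent.LAT

theorem hnu_mem {m : ℕ} (B : Matrix (Fin m) (Fin m) ℤ) (k : Fin m) : B k ∈ rows B :=
  Submodule.subset_span ⟨k, rfl⟩

theorem hnu (hM : HnmStmt) : HnuStmt := by
  intro m B B' hB hB' hr
  have hd : ∀ k, B k k = B' k k := by
    intro k
    refine Int.dvd_antisymm (hB.nonneg k) (hB'.nonneg k) ?_ ?_
    · exact (hM m B hB).1 (B' k) (by rw [hr]; exact hnu_mem B' k) k fun i hi => hB'.tri k i hi
    · exact (hM m B' hB').1 (B k) (by rw [← hr]; exact hnu_mem B k) k fun i hi => hB.tri k i hi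
  have key : ∀ k j, B k j - B' k j = 0 := by
    intro k j
    have hv : (fun i => B k i - B' k i) ∈ rows B := by
      have h1 : (fun i => B k i - B' k i) = B k - B' k := rfl
      rw [h1]
      exact Submodule.sub_mem _ (hnu_mem B k) (by rw [hr]; exact hnu_mem B' k)
    induction j using WellFoundedGT.induction with
    | ind j ih =>
      rcases lt_trichotomy k j with h | h | h
      · rw [hB.tri k j h, hB'.tri k j h, sub_zero]
      · subst h
        rw [hd k, sub_self]
      · have hdv : B j j ∣ B k j - B' k j := (hM m B hB).1 _ hv j fun i hi => ih i hi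
        rcases eq_or_lt_of_le (hB.nonneg j) with h0 | h0
        · rw [← h0] at hdv
          exact zero_dvd_iff.mp hdv
        · have h1 := hB.red k j h h0
          have h2 := hB'.red k j h (by rw [← hd j]; exact h0)
          rw [← hd j] at h2
          refine Int.eq_zero_of_abs_lt_dvd hdv ?_
          rw [abs_lt]
          constructor <;> omega
  ext k j
  exact sub_eq_zero.mp (key k j)

end Pool.Agent.LAT.H8
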